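import Pool.Agent.V11290.UL.NFam

/-!
# A numerical criterion for the order of vanishing in the conjecture of Beilinson and Bloch

Let `V` be a smooth projective variety over a number field `K`, `H = H^{2m-1}(V)` and `L(H, s)` its
`L`-function, `B_v` the local polynomials, so that `L(H, s) = ∏_v B_v(q_v^{-s})⁻¹`.  Beilinson and Bloch
predict that the order of `L(H, s)` at `s = m` is the rank `r` of the group of homologically trivial
cycles of codimension `m`.  The naive numerical form of this, with the partial products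
`∏_{q_v ≤ X} B_v(q_v^{-m}) ~ C (log X)^r`, implies the Riemann hypothesis for `L(H, s)`.

For an angle `γ` consider the sums

`S_γ(X) = ∑_v cos(γ log q_v / log X) / Γ(1 + log q_v / log X) * log B_v(q_v^{-m})`.

Suppose that `L(H, s)` has a meromorphic continuation along the real axis from the region of absolute
convergence to `s = m`.  We prove, with no hypothesis on the zeros and poles:

* for every angle `γ > π/2` the order of `L(H, s)` at `m` is `r` if and only if
  `S_γ(X) = r log log X + O(1)`;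
* for an angle `0 ≤ γ < π/2` this asymptotic formula holds if and only if the order is `r` and
  `L(H, s)` has no zeros and poles on the real interval `(m, m + 1/2]`;
* if there are real zeros or poles beyond `m` and the rightmost is at `m + δ`, then, for
  `0 ≤ γ < π/2`, the sum `S_γ(X)` exceeds `exp (X^y)` infinitely often, in the direction of its sign,
  for every `y < δ`.

So the transition is at the right angle exactly, for every variety, and the sums with `γ > π/2` see the
order at the central point and nothing else.  The case of elliptic curves is in the library of an earlier round.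

The tools (rotated Mittag-Leffler sums) were developed for elliptic curves by the helpers 187, 189, 125,
349, 371, 376 of an earlier round.
-/

set_option autoImplicit false

namespace Pool.Agent.Results.MP_b8021b_nt.NumericalCriterion

open IsDedekindDomain NumberField Filter Topology Polynomial

variable {n : ℕ}

/-- The set `V` of homogeneous polynomials over a ring `R` in `n` variables defines a projective
scheme over `R`.  For a field `κ` with `q` elements and a homomorphism `R → κ` this is `(q - 1)`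
times the number of the points of `V` with coordinates in `κ`: the number of the nonzero solutions
of the equations. -/
noncomputable def cone {R : Type} [CommRing R] (V : Set (MvPolynomial (Fin n) R)) {κ : Type}
    [Field κ] (φ : R →+* κ) : ℕ :=
  Nat.card {u : Fin n → κ // u ≠ 0 ∧ ∀ f ∈ V, MvPolynomial.eval₂ φ u f = 0}

variable {K : Type} [Field K] [NumberField K]

/-- The norm of a prime. -/
noncomputable def q (v : HeightOneSpectrum (𝓞 K)) : ℝ := (Ideal.absNorm v.asIdeal : ℝ)

/-- `α_1, …, α_N` are the eigenvalues of the geometric Frobenius at the prime `v` of `K` on `H^i(V)`,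
for a variety `V` of dimension `d`: there are finite multisets `β_k` of complex numbers of absolute
value `q_v^{k/2}`, `k = 0, …, 2d`, with `β_i = {α_1, …, α_N}`, such that for every finite extension
`κ` of the residue field of `v`, of degree `e`, the number of the points of `V` with coordinates in
`κ` is `∑ (-1)^k ∑_{z ∈ β_k} z^e`.  By the theorem of Deligne such `β_k` exist at almost all primes
if `V` is smooth, with `N` the `i`-th Betti number of `V`; for `k ≤ 2d` they are unique. -/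
def IsFrobenius (V : Set (MvPolynomial (Fin n) (𝓞 K))) (d i : ℕ)
    (v : HeightOneSpectrum (𝓞 K)) {N : ℕ} (α : Fin N → ℂ) : Prop :=
  ∃ β : ℕ → Multiset ℂ, β i = Finset.univ.val.map α ∧
    (∀ k, ∀ z ∈ β k, ‖z‖ = q v ^ ((k : ℝ) / 2)) ∧
    ∀ (κ : Type) [Field κ] [Finite κ] (φ : 𝓞 K →+* κ) (e : ℕ), RingHom.ker φ = v.asIdeal →
      Nat.card κ = Ideal.absNorm v.asIdeal ^ e →
      (cone V φ : ℂ) = ((Ideal.absNorm v.asIdeal : ℂ) ^ e - 1) *
          ∑ k ∈ Finset.range (2 * d + 1), (-1 : ℂ) ^ k * ((β k).map (fun z => z ^ e)).sum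

/-- The polynomials `B v` are the local polynomials of `L(H^{2m-1}(V), s)`: outside the finite set `S` of
primes, `B_v(z) = ∏ (1 - α_j z)` with the eigenvalues `α_j` of Frobenius; at the primes of `S` the
polynomial `B v` is not zero at the real points `q_v^{-x}`, `x ≥ m`. -/
def IsLocalSystem (V : Set (MvPolynomial (Fin n) (𝓞 K))) (d m N : ℕ)
    (S : Finset (HeightOneSpectrum (𝓞 K))) (B : HeightOneSpectrum (𝓞 K) → ℝ[X]) : Prop :=
  (∀ v, v ∉ S → ∃ α : Fin N → ℂ, IsFrobenius V d (2 * m - 1) v α ∧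
    ∀ z : ℂ, aeval z (B v) = ∏ j, (1 - α j * z)) ∧
  ∀ v ∈ S, ∀ x : ℝ, m ≤ x → (B v).eval (q v ^ (-x)) ≠ 0

/-- `L` is a continuation of the `L`-function `∏_v B_v(q_v^{-s})⁻¹` from the half-plane
`Re s > m + 1/2` along the real axis to the central point `m`. -/
def IsContinuation (m : ℕ) (S : Finset (HeightOneSpectrum (𝓞 K)))
    (B : HeightOneSpectrum (𝓞 K) → ℝ[X]) (L : ℂ → ℂ) : Prop :=
  (∀ x : ℝ, m ≤ x → x ≤ m + 1 / 2 → MeromorphicAt L (x : ℂ)) ∧
  ∀ s : ℂ, m + 1 / 2 < s.re → HasProd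
    (fun v : {v : HeightOneSpectrum (𝓞 K) // v ∉ S} => (aeval ((q v.1 : ℂ) ^ (-s)) (B v.1))⁻¹)
    (L s * ∏ v ∈ S, aeval ((q v : ℂ) ^ (-s)) (B v))

/-- The term at `v` of the sum `S_γ(X)`. -/
noncomputable def term (m : ℕ) (B : HeightOneSpectrum (𝓞 K) → ℝ[X]) (γ X : ℝ)
    (v : HeightOneSpectrum (𝓞 K)) : ℝ :=
  Real.cos (γ * (Real.log (q v) / Real.log X)) / Real.Gamma (1 + Real.log (q v) / Real.log X) *
    Real.log ((B v).eval (q v ^ (-(m : ℝ))))

/-- `S_γ(X) = ∑_{v ∉ S} cos(γ log q_v / log X) / Γ(1 + log q_v / log X) * log B_v(q_v^{-m})`. -/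
noncomputable def rotatedSum (m : ℕ) (S : Finset (HeightOneSpectrum (𝓞 K)))
    (B : HeightOneSpectrum (𝓞 K) → ℝ[X]) (γ X : ℝ) : ℝ :=
  ∑' v : {v : HeightOneSpectrum (𝓞 K) // v ∉ S}, term m B γ X v.1

/-- The asymptotic formula `S_γ(X) = r log log X + O(1)`. -/
def Law (m : ℕ) (S : Finset (HeightOneSpectrum (𝓞 K))) (B : HeightOneSpectrum (𝓞 K) → ℝ[X])
    (γ : ℝ) (r : ℤ) : Prop :=
  ∃ C X₀ : ℝ, ∀ X ≥ X₀, |rotatedSum m S B γ X - r * Real.log (Real.log X)| ≤ C

/-- **A numerical criterion for the order in the conjecture of Beilinson and Bloch.** -/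
theorem result (V : Set (MvPolynomial (Fin n) (𝓞 K))) (d m N : ℕ) (hm : 1 ≤ m)
    (S : Finset (HeightOneSpectrum (𝓞 K))) (B : HeightOneSpectrum (𝓞 K) → ℝ[X])
    (hB : IsLocalSystem V d m N S B) (L : ℂ → ℂ) (hL : IsContinuation m S B L) :
    (∀ v, v ∉ S → 0 < (B v).eval (q v ^ (-(m : ℝ)))) ∧
    (∀ γ X : ℝ, 1 < X →
      Summable fun v : {v : HeightOneSpectrum (𝓞 K) // v ∉ S} => ‖term m B γ X v.1‖) ∧
    (∃ ρ : ℤ, meromorphicOrderAt L (m : ℂ) = ρ) ∧
    (∀ (r : ℤ) (γ : ℝ), Real.pi / 2 < γ → (meromorphicOrderAt L (m : ℂ) = r ↔ Law m S B γ r)) ∧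
    (∀ (r : ℤ) (γ : ℝ), 0 ≤ γ → γ < Real.pi / 2 → (Law m S B γ r ↔
      meromorphicOrderAt L (m : ℂ) = r ∧
        ∀ x : ℝ, m < x → x ≤ m + 1 / 2 → meromorphicOrderAt L (x : ℂ) = 0)) ∧
    ∀ (x₀ : ℝ) (μ : ℤ), m < x₀ → x₀ ≤ m + 1 / 2 → μ ≠ 0 → meromorphicOrderAt L (x₀ : ℂ) = μ →
      (∀ x : ℝ, x₀ < x → x ≤ m + 1 / 2 → meromorphicOrderAt L (x : ℂ) = 0) →
      ∀ γ : ℝ, 0 ≤ γ → γ < Real.pi / 2 → ∀ y : ℝ, y < x₀ - m → ∀ D : ℝ,
        ∃ᶠ X : ℝ in atTop,
          Real.exp (X ^ y) + D * Real.log X ≤ (μ.sign : ℝ) * rotatedSum m S B γ X := by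
  have h := Pool.Agent.V11290.UL.nf_main S (m : ℝ) N B (fun v hv => ?_) hB.2 (L := L) hL.1
    (fun s hs => hL.2 s hs)
  · refine ⟨fun v hv => h.pos ⟨v, hv⟩, fun γ X hX => h.summable γ X hX, ?_, ?_, ?_, ?_⟩
    · obtain ⟨ρ, hρ⟩ := WithTop.ne_top_iff_exists.1 h.ne_top
      exact ⟨ρ, hρ.symm⟩
    · intro r γ hγ
      exact (h.high r γ hγ).symm
    · intro r γ h0 h1
      refine (h.low r γ h0 h1).trans (and_congr_right fun _ => ⟨fun h x h2 h3 => h x ⟨h2, h3⟩,
        fun h x hx => h x hx.1 hx.2⟩)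
    · intro x₀ μ h1 h2 h3 h4 h5 γ h6 h7 y h8 D
      exact h.growth x₀ μ h1 h3 h4 h5 h2 γ h6 h7 y h8 D
  · obtain ⟨α, ⟨β, h1, h2, -⟩, h3⟩ := hB.1 v hv
    refine ⟨α, fun j => ?_, h3⟩
    have h4 : α j ∈ β (2 * m - 1) := by
      rw [h1]
      exact Multiset.mem_map_of_mem _ (Finset.mem_univ_val j)
    have h5 := h2 _ _ h4
    have h6 : (((2 * m - 1 : ℕ) : ℝ)) / 2 = (m : ℝ) - 1 / 2 := by
      rw [Nat.cast_sub (by omega)]
      push_cast
      ring
    rw [h6] at h5
    exact h5.le

end Pool.Agent.Results.MP_b8021b_nt.NumericalCriterion
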