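import Pool.Agent.V11333.EVSys

/-!
# The order of `L(H^i(X), s)` at the central point and the partial products, with bounds from one side

Let `X` be a smooth projective variety of dimension `d` over a number field `K` and `0 ≤ i ≤ 2d`. For all
primes `v` in a set `S` (in the main case almost all primes) let `α_{v,1}, …, α_{v,N}` be the eigenvalues of
Frobenius on `H^i(X)`, let `L(s) = ∏_{v ∈ S} ∏_j (1 - α_{v,j} q_v^{-s})⁻¹`, `Re s > i/2 + 1`, and let
`c = (i + 1)/2` be the central point; for `i = 2m - 1` it is the point `c = m` of the conjecture of Beilinson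
and Bloch. The analogue of the product of Birch and Swinnerton-Dyer is

`P(x) = ∏_{v ∈ S, q_v ≤ x} |∏_j (1 - α_{v,j} q_v^{-c})|`, the product of the values `|det(1 - Frob_v q_v^{-c})|`.

It is only assumed that `L(s)` has an analytic continuation `H` along the REAL axis, to a neighbourhood of every
real `s > c` (nothing is assumed at `c` itself). `H` has the radial order `κ ∈ ℝ` at `c` if `|H(s)|` is of the
exact order `(s - c)^κ` for `s → c`, `s > c` real; if `H` is meromorphic at `c`, then the radial order is the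
order of vanishing of `H` at `c` (part 4). The theorem:

1. For every real `κ` the following are equivalent: `P(x)` is of the exact order `(log x)^κ`; `H` has the radial
   order `κ` and `P(y) ≤ C P(x)` for `x ≤ y ≤ x²`; `H` has the radial order `κ`, `H` has no zeros at the real
   `s > c`, and `P(x) ≤ C P(y)` for `x ≤ y ≤ x²`. They imply that `L(s)` has a holomorphic continuation
   without zeros to `Re s > c`.
2. If `P(x) = O((log x)^A)` (a bound from one side), then `L(s)` has a holomorphic continuation without zeros to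
   `Re s > c`; if `H` has the radial order `κ`, then `κ ≤ A`, `∫_0^U log P(e^u) du ~ κ U log U`, and for `κ = A`
   moreover `∫_1^U |log P(e^u) - κ log u| du = O(U)`.
3. If `P(x) ≥ c' (log x)^A`, `c' > 0`, and `H` has no zeros at the real `s > c`, the same is true with `κ ≥ A`.

So the order of vanishing in the conjecture of Beilinson and Bloch can be read off from the partial products
under a condition from one side only, and the product being of the exact order `(log x)^r` with
`r = rank CH^m_hom(X)` gives the equality of the orders.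
-/

set_option autoImplicit false

namespace Pool.Agent.Results.MP_b8021b_nt.OneSidedProducts

open Filter Topology Set NumberField IsDedekindDomain MeasureTheory

variable {K : Type} [Field K] [NumberField K] {n N : ℕ}

/-- The norm `q_v`. -/
noncomputable def nrm (v : HeightOneSpectrum (𝓞 K)) : ℕ := Ideal.absNorm v.asIdeal

/-- The set `X` of homogeneous polynomials over `𝓞_K` in `n` variables gives a projective variety over
`K`.  For a field `κ` with `q` elements and a homomorphism `𝓞_K → κ` this is `(q - 1)` times the number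
of the points of `X` with coordinates in `κ`: the number of the nonzero solutions of the equations. -/
noncomputable def cone (X : Set (MvPolynomial (Fin n) (𝓞 K))) {κ : Type} [Field κ]
    (φ : 𝓞 K →+* κ) : ℕ :=
  Nat.card {u : Fin n → κ // u ≠ 0 ∧ ∀ f ∈ X, MvPolynomial.eval₂ φ u f = 0}

/-- `α_1, …, α_N` are the eigenvalues of the geometric Frobenius at the prime `v` of `K` on `H^i(X)`,
for a variety `X` of dimension `d`: there are finite multisets `β_k` of complex numbers of absolute
value `q_v^{k/2}`, `k = 0, …, 2d`, with `β_i = {α_1, …, α_N}`, such that for every finite extension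
`κ` of the residue field of `v`, of degree `e`, the number of the points of `X` with coordinates in
`κ` is `∑ (-1)^k ∑_{z ∈ β_k} z^e`.  By the theorem of Deligne such `β_k` exist at almost all primes
if `X` is smooth, with `N` the `i`-th Betti number of `X`; for `k ≤ 2d` they are unique. -/
def IsFrobenius (X : Set (MvPolynomial (Fin n) (𝓞 K))) (d i : ℕ)
    (v : HeightOneSpectrum (𝓞 K)) (α : Fin N → ℂ) : Prop :=
  ∃ β : ℕ → Multiset ℂ, β i = Finset.univ.val.map α ∧
    (∀ k, ∀ z ∈ β k, ‖z‖ = (nrm v : ℝ) ^ ((k : ℝ) / 2)) ∧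
    ∀ (κ : Type) [Field κ] [Finite κ] (φ : 𝓞 K →+* κ) (e : ℕ), RingHom.ker φ = v.asIdeal →
      Nat.card κ = nrm v ^ e →
      (cone X φ : ℂ) = ((nrm v : ℂ) ^ e - 1) *
          ∑ k ∈ Finset.range (2 * d + 1), (-1 : ℂ) ^ k * ((β k).map (fun z => z ^ e)).sum

variable {S : Set (HeightOneSpectrum (𝓞 K))}

/-- The Euler factor `∏_j (1 - α_{v,j} q_v^{-s})⁻¹`. -/
noncomputable def factor (α : S → Fin N → ℂ) (v : S) (s : ℂ) : ℂ :=
  ∏ j, (1 - α v j * (nrm v.1 : ℂ) ^ (-s))⁻¹

/-- The central point `(i + 1)/2`. -/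
noncomputable def centre (i : ℕ) : ℝ := ((i : ℝ) + 1) / 2

/-- `log P(x)`, the sum of `log |∏_j (1 - α_{v,j} q_v^{-c})|` over the `v ∈ S` with `q_v ≤ x`. -/
noncomputable def logP (i : ℕ) (α : S → Fin N → ℂ) (x : ℝ) : ℝ :=
  ∑ᶠ (v : S) (_ : (nrm v.1 : ℝ) ≤ x),
    Real.log ‖∏ j, (1 - α v j * (nrm v.1 : ℂ) ^ (-(centre i : ℂ)))‖

/-- `H` is an analytic continuation of `L(s)` along the real axis: it is analytic at all real `x > c`
and equal to the Euler product at the real `x > i/2 + 1`. -/
def IsRealContinuation (i : ℕ) (α : S → Fin N → ℂ) (H : ℂ → ℂ) : Prop :=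
  (∀ x : ℝ, centre i < x → AnalyticAt ℂ H x) ∧
    ∀ x : ℝ, (i : ℝ) / 2 + 1 < x → HasProd (fun v : S => factor α v x) (H x)

/-- `L(s)` has a holomorphic continuation without zeros to the half plane `Re s > c`. -/
def NoZeros (i : ℕ) (α : S → Fin N → ℂ) : Prop :=
  ∃ G : ℂ → ℂ, (∀ s : ℂ, centre i < s.re → DifferentiableAt ℂ G s ∧ G s ≠ 0) ∧
    ∀ s : ℂ, (i : ℝ) / 2 + 1 < s.re → HasProd (fun v : S => factor α v s) (G s)

/-- `|H(s)|` is of the exact order `(s - c)^κ` for real `s > c`, `s → c`. -/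
def RadialOrder (i : ℕ) (H : ℂ → ℂ) (κ : ℝ) : Prop :=
  ∃ B C : ℝ, 0 < B ∧ ∀ᶠ s : ℝ in 𝓝[>] centre i,
    B * (s - centre i) ^ κ ≤ ‖H s‖ ∧ ‖H s‖ ≤ C * (s - centre i) ^ κ

/-- `P(x)` is of the exact order `(log x)^A`: `|log P(x) - A log log x| ≤ C` for large `x`. -/
def ExactOrder (i : ℕ) (α : S → Fin N → ℂ) (A : ℝ) : Prop :=
  ∃ C : ℝ, ∀ᶠ x : ℝ in atTop, |logP i α x - A * Real.log (Real.log x)| ≤ C

/-- `P(x) = O((log x)^A)`. -/
def UpperOrder (i : ℕ) (α : S → Fin N → ℂ) (A : ℝ) : Prop :=
  ∃ C : ℝ, ∀ᶠ x : ℝ in atTop, logP i α x ≤ A * Real.log (Real.log x) + C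

/-- `P(x) ≥ c' (log x)^A` for large `x`, for some `c' > 0`. -/
def LowerOrder (i : ℕ) (α : S → Fin N → ℂ) (A : ℝ) : Prop :=
  ∃ C : ℝ, ∀ᶠ x : ℝ in atTop, A * Real.log (Real.log x) - C ≤ logP i α x

/-- `P(y) ≤ e^C P(x)` for `x ≤ y ≤ x²` and large `x`. -/
def UpperDoubling (i : ℕ) (α : S → Fin N → ℂ) : Prop :=
  ∃ C : ℝ, ∀ᶠ x : ℝ in atTop, ∀ y : ℝ, x ≤ y → y ≤ x ^ 2 → logP i α y ≤ logP i α x + C

/-- `P(x) ≤ e^C P(y)` for `x ≤ y ≤ x²` and large `x`. -/
def LowerDoubling (i : ℕ) (α : S → Fin N → ℂ) : Prop :=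
  ∃ C : ℝ, ∀ᶠ x : ℝ in atTop, ∀ y : ℝ, x ≤ y → y ≤ x ^ 2 → logP i α x ≤ logP i α y + C

/-- The mean value of `log P(e^u)` over `(0, U]` is asymptotic to `κ log U`. -/
def MeanValue (i : ℕ) (α : S → Fin N → ℂ) (κ : ℝ) : Prop :=
  Tendsto (fun U : ℝ => (∫ u in Ioc 0 U, logP i α (Real.exp u)) / (U * Real.log U)) atTop (𝓝 κ)

/-- `∫_1^U |log P(e^u) - κ log u| du = O(U)`. -/
def CloseInMean (i : ℕ) (α : S → Fin N → ℂ) (κ : ℝ) : Prop :=
  ∃ C : ℝ, ∀ U : ℝ, 1 ≤ U → ∫ u in Ioc 1 U, |logP i α (Real.exp u) - κ * Real.log u| ≤ C * U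

open Pool.Agent.TH942.ES Pool.Agent.V11333 Pool.Agent.V11333.OneSide

section tools

variable {X : Set (MvPolynomial (Fin n) (𝓞 K))} {d i : ℕ} {α : S → Fin N → ℂ}

theorem logP_exp (h : ∀ v, IsFrobenius X d i v.1 (α v)) : (fun u => logP i α (Real.exp u)) =
    st (fun v : S => Pool.Agent.H921R2.TatePole.nm v.1) (EVS.nal i α) := by
  funext t
  unfold logP st SP
  refine finsum_congr fun v => finsum_congr fun _ => ?_
  exact (EVS.cv_log h v).symm

theorem hasProd_iff (hi : i ≤ 2 * d) (h : ∀ v, IsFrobenius X d i v.1 (α v)) {s : ℂ}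
    (hs : (i : ℝ) / 2 + 1 < s.re) (y : ℂ) :
    HasProd (fun v : S => factor α v s) y ↔
      y = LE (fun v : S => Pool.Agent.H921R2.TatePole.nm v.1) (EVS.nal i α) (s - centre i) :=
  EVS.hasProd_iff hi h hs y

/-- The shifted function. -/
theorem shift (hi : i ≤ 2 * d) (h : ∀ v, IsFrobenius X d i v.1 (α v)) {H : ℂ → ℂ}
    (hH : IsRealContinuation i α H) :
    (∀ x : ℝ, 0 < x → AnalyticAt ℂ (fun s => H (s + centre i)) x) ∧
      ∀ x : ℝ, 1 / 2 < x → H ((x : ℂ) + centre i) =
        LE (fun v : S => Pool.Agent.H921R2.TatePole.nm v.1) (EVS.nal i α) x := by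
  obtain ⟨h1, h2⟩ := hH
  refine ⟨fun x hx => ?_, fun x hx => ?_⟩
  · have e : AnalyticAt ℂ H ((x : ℂ) + centre i) := by
      have := h1 (x + centre i) (by linarith)
      push_cast at this
      exact this
    exact AnalyticAt.comp (g := H) (f := fun s : ℂ => s + centre i) e
      (analyticAt_id.add analyticAt_const)
  · have e := h2 (x + centre i) (by unfold centre; linarith)
    rw [hasProd_iff hi h (by rw [Complex.ofReal_re]; unfold centre; linarith)] at e
    push_cast at e
    rw [add_sub_cancel_right] at e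
    exact e

/-- Convergence gives the continuation. -/
theorem noZeros_of (hi : i ≤ 2 * d) (h : ∀ v, IsFrobenius X d i v.1 (α v))
    (hc : ∀ w > 0, Pool.Agent.W263.BSD.LInt
      (st (fun v : S => Pool.Agent.H921R2.TatePole.nm v.1) (EVS.nal i α)) w) : NoZeros i α := by
  obtain ⟨G, h1, h2⟩ := cont_of_st (EVS.sys hi h) le_rfl fun w hw => hc w hw
  have h3 : ∀ s : ℂ, (i : ℝ) / 2 + 1 < s.re → 1 / 2 < (s - centre i).re := fun s hs => by
    rw [Complex.sub_re, Complex.ofReal_re]
    unfold centre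
    linarith
  refine ⟨fun s => G (s - centre i), fun s hs => ?_, fun s hs => ?_⟩
  · have h4 := h1 (s - centre i) (Or.inl (by
      rw [Complex.sub_re, Complex.ofReal_re]
      linarith))
    exact ⟨h4.1.comp s (by fun_prop), h4.2⟩
  · rw [hasProd_iff hi h hs]
    exact h2 (s - centre i) (h3 s hs)

theorem radial_iff {H : ℂ → ℂ} {κ : ℝ} :
    RadialOrder i H κ ↔ Central.RO (fun s => H (s + centre i)) κ := by
  unfold RadialOrder Central.RO
  refine exists_congr fun B => exists_congr fun C => and_congr_right fun _ => ?_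
  have h1 : Tendsto (fun w : ℝ => w + centre i) (𝓝[>] 0) (𝓝[>] centre i) := by
    refine tendsto_nhdsWithin_of_tendsto_nhds_of_eventually_within _ ?_ ?_
    · have : Tendsto (fun w : ℝ => w + centre i) (𝓝 0) (𝓝 (0 + centre i)) :=
        (continuous_id.add continuous_const).tendsto _
      rw [zero_add] at this
      exact this.mono_left nhdsWithin_le_nhds
    · filter_upwards [self_mem_nhdsWithin] with w hw
      have : (0 : ℝ) < w := hw
      exact (by linarith : centre i < w + centre i)
  have h2 : Tendsto (fun s : ℝ => s - centre i) (𝓝[>] centre i) (𝓝[>] 0) := by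
    refine tendsto_nhdsWithin_of_tendsto_nhds_of_eventually_within _ ?_ ?_
    · have : Tendsto (fun s : ℝ => s - centre i) (𝓝 (centre i)) (𝓝 (centre i - centre i)) :=
        (continuous_id.sub continuous_const).tendsto _
      rw [sub_self] at this
      exact this.mono_left nhdsWithin_le_nhds
    · filter_upwards [self_mem_nhdsWithin] with s hs
      have : centre i < s := hs
      exact (by linarith : (0 : ℝ) < s - centre i)
  constructor
  · intro h
    filter_upwards [h1.eventually h] with w hw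
    rw [add_sub_cancel_right] at hw
    push_cast at hw
    exact hw
  · intro h
    filter_upwards [h2.eventually h] with s hs
    push_cast at hs
    rw [sub_add_cancel] at hs
    exact hs

/-- from `x` to `u = log x` -/
theorem exp_iff {f : ℝ → Prop} : (∀ᶠ x : ℝ in atTop, f x) ↔ ∀ᶠ u : ℝ in atTop, f (Real.exp u) := by
  constructor
  · exact fun h => Real.tendsto_exp_atTop.eventually h
  · intro h
    have h1 := Real.tendsto_log_atTop.eventually h
    filter_upwards [h1, eventually_gt_atTop 0] with x hx h0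
    rwa [Real.exp_log h0] at hx

/-- the doubling condition in the logarithmic variable -/
theorem doubling {f : ℝ → ℝ} (h : ∃ C : ℝ, ∀ᶠ x : ℝ in atTop, ∀ y : ℝ, x ≤ y → y ≤ x ^ 2 →
    f y ≤ f x + C) : ∃ K u0 : ℝ, 0 ≤ K ∧ 1 ≤ u0 ∧ ∀ u v, u0 ≤ u → u ≤ v → v ≤ 2 * u →
      f (Real.exp v) ≤ f (Real.exp u) + K := by
  obtain ⟨C, hC⟩ := h
  obtain ⟨U, hU⟩ := eventually_atTop.mp (exp_iff.mp hC)
  refine ⟨|C|, max U 1, abs_nonneg C, le_max_right _ _, fun u v h1 h2 h3 => ?_⟩
  have h4 := hU u ((le_max_left _ _).trans h1) (Real.exp v) (Real.exp_le_exp.mpr h2) (by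
    rw [← Real.exp_nat_mul]
    exact Real.exp_le_exp.mpr (by push_cast; linarith))
  have := le_abs_self C
  linarith

/-- the exact order implies the two doubling conditions -/
theorem doubling_of_order {A : ℝ} (h : ExactOrder i α A) :
    UpperDoubling i α ∧ LowerDoubling i α := by
  obtain ⟨C, hC⟩ := h
  obtain ⟨X, hX⟩ := eventually_atTop.mp hC
  have key : ∀ᶠ x : ℝ in atTop, ∀ y : ℝ, x ≤ y → y ≤ x ^ 2 →
      |logP i α y - logP i α x| ≤ 2 * C + |A| * Real.log 2 := by
    filter_upwards [eventually_ge_atTop (max X (Real.exp 1))] with x hx y h1 h2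
    have hx1 : Real.exp 1 ≤ x := (le_max_right _ _).trans hx
    have hx0 : 0 < x := lt_of_lt_of_le (Real.exp_pos 1) hx1
    have hl : 1 ≤ Real.log x := by rwa [Real.le_log_iff_exp_le hx0]
    have e1 := hX x ((le_max_left _ _).trans hx)
    have e2 := hX y (((le_max_left _ _).trans hx).trans h1)
    have hlx : Real.log x ≤ Real.log y := Real.log_le_log hx0 h1
    have hly : Real.log y ≤ 2 * Real.log x := by
      have := Real.log_le_log (by linarith) h2
      rwa [Real.log_pow] at this
    have e3 : Real.log (Real.log x) ≤ Real.log (Real.log y) := Real.log_le_log (by linarith) hlx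
    have e4 : Real.log (Real.log y) ≤ Real.log 2 + Real.log (Real.log x) := by
      rw [← Real.log_mul (by norm_num) (by linarith)]
      exact Real.log_le_log (by linarith) hly
    have e5 : |A * (Real.log (Real.log y) - Real.log (Real.log x))| ≤ |A| * Real.log 2 := by
      rw [abs_mul]
      refine mul_le_mul_of_nonneg_left ?_ (abs_nonneg _)
      rw [abs_of_nonneg (by linarith)]
      linarith
    have e6 : logP i α y - logP i α x = (logP i α y - A * Real.log (Real.log y)) -
        (logP i α x - A * Real.log (Real.log x)) +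
        A * (Real.log (Real.log y) - Real.log (Real.log x)) := by ring
    rw [e6]
    have e7 := abs_sub (logP i α y - A * Real.log (Real.log y))
      (logP i α x - A * Real.log (Real.log x))
    have e8 := abs_add_le ((logP i α y - A * Real.log (Real.log y)) -
        (logP i α x - A * Real.log (Real.log x)))
      (A * (Real.log (Real.log y) - Real.log (Real.log x)))
    linarith
  constructor
  · refine ⟨2 * C + |A| * Real.log 2, key.mono fun x hx y h1 h2 => ?_⟩
    have := (abs_le.mp (hx y h1 h2)).2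
    linarith
  · refine ⟨2 * C + |A| * Real.log 2, key.mono fun x hx y h1 h2 => ?_⟩
    have := (abs_le.mp (hx y h1 h2)).1
    linarith

open Pool.Agent.W263.BSD in
/-- the exact order from the bound for the shifted logarithm -/
theorem exact_of (h : ∀ v, IsFrobenius X d i v.1 (α v)) {κ : ℝ} (hM : ∃ M : ℝ, ∀ u, 0 < u →
    |st (fun v : S => Pool.Agent.H921R2.TatePole.nm v.1) (EVS.nal i α) u - κ * ell u| ≤ M) :
    ExactOrder i α κ := by
  obtain ⟨M, hM⟩ := hM
  refine ⟨M + |κ|, ?_⟩
  rw [exp_iff]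
  filter_upwards [eventually_ge_atTop 2] with u hu
  have e0 := congrFun (logP_exp h) u
  rw [Real.log_exp, e0]
  have h1 := hM u (by linarith)
  have h2 := ell_le hu
  have h3 := log_le_ell (by linarith : 0 < u)
  have e1 : ∀ s : ℝ, s - κ * Real.log u = (s - κ * ell u) + κ * (ell u - Real.log u) := fun s => by
    ring
  rw [e1]
  refine (abs_add_le _ _).trans (add_le_add h1 ?_)
  rw [abs_mul, abs_of_nonneg (show 0 ≤ ell u - Real.log u by linarith)]
  have : |κ| * (ell u - Real.log u) ≤ |κ| * 1 :=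
    mul_le_mul_of_nonneg_left (by linarith) (abs_nonneg κ)
  linarith

end tools

/-- **Theorem.** Let `X` be a projective variety over a number field `K`, given by a set of homogeneous
polynomials over `𝓞_K`, `i ≤ 2d`, `S` a set of primes of `K`, `α_{v,j}` the eigenvalues of Frobenius on
`H^i(X)` at all `v ∈ S`, and `H` an analytic continuation of `L(s)` along the real axis to all `s > c`.

(1) For every real `κ` the following are equivalent: `P(x)` is of the exact order `(log x)^κ`; `H` has the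
radial order `κ` at `c` and upper doubling holds; `H` has the radial order `κ` at `c`, no zeros at the real
`s > c`, and lower doubling holds. They imply that `L(s)` has a holomorphic continuation without zeros to
`Re s > c`.
(2) If `P(x) = O((log x)^A)`, then `L(s)` has a holomorphic continuation without zeros to `Re s > c`, and if
`κ` is the radial order of `H` at `c`, then `∫_0^U log P(e^u) du ~ κ U log U`, `κ ≤ A`, and
`∫_1^U |log P(e^u) - κ log u| du = O(U)` if `κ = A`.
(3) If `P(x) ≥ c' (log x)^A` and `H` has no zeros at the real `s > c`, the same is true with `κ ≥ A`.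
(4) If `H` is meromorphic at `c`, of the order `m ∈ ℤ`, then `κ` is its radial order if and only if `κ = m`. -/
theorem result (X : Set (MvPolynomial (Fin n) (𝓞 K))) (d i : ℕ) (hi : i ≤ 2 * d)
    (α : S → Fin N → ℂ) (h : ∀ v, IsFrobenius X d i v.1 (α v)) (H : ℂ → ℂ)
    (hH : IsRealContinuation i α H) :
    (∀ κ : ℝ, List.TFAE [
      ExactOrder i α κ,
      RadialOrder i H κ ∧ UpperDoubling i α,
      RadialOrder i H κ ∧ (∀ x : ℝ, centre i < x → H x ≠ 0) ∧ LowerDoubling i α] ∧
      (ExactOrder i α κ → NoZeros i α)) ∧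
    (∀ A : ℝ, UpperOrder i α A → NoZeros i α ∧ ∀ κ : ℝ, RadialOrder i H κ →
      MeanValue i α κ ∧ κ ≤ A ∧ (κ = A → CloseInMean i α κ)) ∧
    (∀ A : ℝ, LowerOrder i α A → (∀ x : ℝ, centre i < x → H x ≠ 0) →
      NoZeros i α ∧ ∀ κ : ℝ, RadialOrder i H κ →
      MeanValue i α κ ∧ A ≤ κ ∧ (κ = A → CloseInMean i α κ)) ∧
    (∀ m : ℤ, MeromorphicAt H (centre i : ℂ) → meromorphicOrderAt H (centre i : ℂ) = m →
      ∀ κ : ℝ, RadialOrder i H κ ↔ κ = m) := by
  obtain ⟨h1, h2⟩ := shift hi h hH
  have E := EVS.sys hi h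
  set NN : S → ℕ := fun v => Pool.Agent.H921R2.TatePole.nm v.1 with hNN
  set H1 : ℂ → ℂ := fun s => H (s + centre i) with hH1
  have h2' : ∀ x : ℝ, 1 / 2 < x → H1 x = LE NN (EVS.nal i α) x := h2
  have e0 : (fun u => logP i α (Real.exp u)) = st NN (EVS.nal i α) := logP_exp h
  have e0' : ∀ u, logP i α (Real.exp u) = st NN (EVS.nal i α) u := congrFun e0
  have hrad : ∀ κ : ℝ, RadialOrder i H κ ↔ Central.RO H1 κ := fun κ => radial_iff
  have hne : (∀ x : ℝ, centre i < x → H x ≠ 0) → ∀ x : ℝ, 0 < x → H1 x ≠ 0 := by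
    intro h x hx
    have := h (x + centre i) (by linarith)
    push_cast at this
    exact this
  have hne' : NoZeros i α → ∀ x : ℝ, centre i < x → H x ≠ 0 := by
    rintro ⟨G, h3, h4⟩ x hx
    have a1 : AnalyticOnNhd ℝ (fun w : ℝ => H (w : ℂ)) (Ioi (centre i)) := fun w hw =>
      an_ofReal (hH.1 w hw)
    have a2 : AnalyticOnNhd ℝ (fun w : ℝ => G (w : ℂ)) (Ioi (centre i)) := fun w hw =>
      an_ofReal (an_of_half (fun z hz => (h3 z hz).1) (by simpa using hw))
    have h5 : (i : ℝ) / 2 + 1 < (i : ℝ) / 2 + 2 := by linarith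
    have a3 := a1.eqOn_of_preconnected_of_eventuallyEq a2 isPreconnected_Ioi
      (show (i : ℝ) / 2 + 2 ∈ Ioi (centre i) by
        show centre i < (i : ℝ) / 2 + 2
        unfold centre
        linarith) (by
        filter_upwards [lt_mem_nhds h5] with w hw
        exact (hH.2 w hw).unique (h4 w (by rwa [Complex.ofReal_re])))
    rw [show H x = G x from a3 hx]
    exact (h3 x (by simpa using hx)).2
  have hord : ∀ {κ K u0 : ℝ}, RadialOrder i H κ → 0 ≤ K → 1 ≤ u0 →
      ((∀ u v, u0 ≤ u → u ≤ v → v ≤ 2 * u →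
        logP i α (Real.exp v) ≤ logP i α (Real.exp u) + K) ∨
      ((∀ x : ℝ, centre i < x → H x ≠ 0) ∧ ∀ u v, u0 ≤ u → u ≤ v → v ≤ 2 * u →
        logP i α (Real.exp u) ≤ logP i α (Real.exp v) + K)) → ExactOrder i α κ := by
    intro κ K u0 hr hK hu0 h'
    simp only [e0'] at h'
    obtain ⟨h5, h6⟩ := Central.sys_order' E h1 h2' ((hrad κ).1 hr) hK hu0
      (h'.imp_right fun h => ⟨hne h.1, h.2⟩)
    exact exact_of h h6
  have hexact : ∀ κ : ℝ, ExactOrder i α κ → NoZeros i α ∧ RadialOrder i H κ := by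
    rintro κ ⟨C, hC⟩
    rw [exp_iff] at hC
    simp only [Real.log_exp, e0'] at hC
    obtain ⟨h5, h6⟩ := Central.sys_exact E h1 h2' (κ := κ) ⟨C, hC⟩
    exact ⟨noZeros_of hi h h5, (hrad κ).2 h6⟩
  refine ⟨fun κ => ⟨?_, fun h => (hexact κ h).1⟩, ?_, ?_, ?_⟩
  · tfae_have 1 → 2 := fun h => ⟨(hexact κ h).2, (doubling_of_order h).1⟩
    tfae_have 1 → 3 := fun h => ⟨(hexact κ h).2, hne' (hexact κ h).1, (doubling_of_order h).2⟩
    tfae_have 2 → 1 := by
      rintro ⟨h3, h4⟩
      obtain ⟨K, u0, hK, hu0, h5⟩ := doubling h4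
      exact hord h3 hK hu0 (Or.inl h5)
    tfae_have 3 → 1 := by
      rintro ⟨h3, h4, C, hC⟩
      have hneg : ∃ C : ℝ, ∀ᶠ x : ℝ in atTop, ∀ y : ℝ, x ≤ y → y ≤ x ^ 2 →
          (fun x => -logP i α x) y ≤ (fun x => -logP i α x) x + C :=
        ⟨C, hC.mono fun x hx y h4 h5 => by
          have := hx y h4 h5
          simp only
          linarith⟩
      obtain ⟨K, u0, hK, hu0, h5⟩ := doubling (f := fun x => -logP i α x) hneg
      refine hord h3 hK hu0 (Or.inr ⟨h4, fun u v h6 h7 h8 => ?_⟩)
      have := h5 u v h6 h7 h8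
      linarith
    tfae_finish
  · rintro A ⟨C, hC⟩
    rw [exp_iff] at hC
    simp only [Real.log_exp, e0'] at hC
    obtain ⟨h5, h6⟩ := Central.sys_upper' E h1 h2' (A := A) ⟨C, hC⟩
    refine ⟨noZeros_of hi h h5, fun κ hr => ?_⟩
    obtain ⟨h7, h8, h9⟩ := h6 κ ((hrad κ).1 hr)
    refine ⟨?_, h8, ?_⟩
    · unfold MeanValue
      simp only [e0']
      exact h7
    · unfold CloseInMean
      simp only [e0']
      exact h9
  · rintro A ⟨C, hC⟩ h'
    rw [exp_iff] at hC
    simp only [Real.log_exp, e0'] at hC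
    obtain ⟨h5, h6⟩ := Central.sys_lower' E h1 h2' (hne h') (A := A) ⟨C, hC⟩
    refine ⟨noZeros_of hi h h5, fun κ hr => ?_⟩
    obtain ⟨h7, h8, h9⟩ := h6 κ ((hrad κ).1 hr)
    refine ⟨?_, h8, ?_⟩
    · unfold MeanValue
      simp only [e0']
      exact h7
    · unfold CloseInMean
      simp only [e0']
      exact h9
  · intro m hm hmo κ
    have hm1 : MeromorphicAt H1 0 := by
      rw [hH1, meromorphicAt_fun_comp_add_const_iff_meromorphicAt, zero_add]
      exact hm
    have hmo1 : meromorphicOrderAt H1 0 = m := by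
      rw [hH1, meromorphicOrderAt_fun_comp_add_const_eq_meromorphicOrderAt, zero_add]
      exact hmo
    have h5 := Central.ro_of_mero hm1 hmo1
    rw [hrad]
    constructor
    · exact fun h6 => h6.unique h5
    · rintro rfl
      exact h5

end Pool.Agent.Results.MP_b8021b_nt.OneSidedProducts
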