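import Pool.Agent.V1194.SO.HX

/-!
# A scale of numerical forms of the order of `L(H^i(X), s)` at the central point

Let `X` be a smooth projective variety of dimension `d` over a number field `K`, `0 ≤ i ≤ 2d`. For all
primes `v` in a set `S` (in the main case almost all primes) let `α_{v,1}, …, α_{v,N}` be the eigenvalues of
Frobenius on `H^i(X)`, let `L(s) = ∏_{v ∈ S} ∏_j (1 - α_{v,j} q_v^{-s})⁻¹`, `Re s > i/2 + 1`, and let
`c = (i + 1)/2` be the central point; for `i = 2m - 1` it is the point `c = m` of the conjecture of Beilinson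
and Bloch. The analogue of the product of Birch and Swinnerton-Dyer is the product of the
`|∏_j (1 - α_{v,j} q_v^{-c})|` over `q_v ≤ x`; its being of the exact order `(log x)^r` contains the Riemann
hypothesis for `L`. Here the sharp cut-off is replaced by the weights
`w_ρ(u) = (1/2πi) ∫ exp(z - u z^{1/ρ}) dz/z`, `ρ > 1`, which decay so fast that the means

`S_ρ(Y) = ∑_{q_v ≤ exp ((log Y)^{ρ'})} w_ρ(log q_v / log Y) log |∏_j (1 - α_{v,j} q_v^{-c})|`

do not depend on `ρ' > ρ` up to a bounded error. It is shown for all `ρ' > ρ > 1`: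

1. `L(s)` has a holomorphic continuation without zeros to the sector `|arg (s - c)| < π/(2ρ)` if and only if
   `S_ρ(Y) = O(exp(ε (log Y)^ρ))` for every `ε > 0` (no continuation is supposed).
2. If `S_ρ(Y) = κ log log Y + O(1)` with a real number `κ`, then `L(s)` has such a continuation, and for every
   analytic continuation `H` of `L(s)` along the real axis to all real `s > c`, `H` has no zeros there,
   `|H(s)|` is of the exact order `(s - c)^κ` for `s → c`, and if `H` is meromorphic at `c`, then `κ` is the order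
   of `H` at `c`.
3. If `L(s)` has a continuation `G` to `Re s > c` and to a neighbourhood of `c`, then for every natural
   number `r`: the order of `G` at `c` is `r` and `G` has no zeros in the sector if and only if
   `S_ρ(Y) = r log log Y + O(1)`; the order is `r` and `G` has no zeros with `Re s > c` if and only if this
   holds for all `ρ' > ρ > 1`; and the exponential growth of `S_ρ(Y)` in the scale `exp(θ (log Y)^ρ)` is given
   exactly by the maximum `θ` of `Re (s - c)^ρ` over the zeros `s` of `G` in the sector.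

With `r = rank CH^m_hom(X)`, `i = 2m - 1`, (3) is a scale of numerical forms of the equality of the conjecture of
Beilinson and Bloch, each equivalent to the equality together with the absence of zeros in one sector.
-/

set_option autoImplicit false

namespace Pool.Agent.Results.MP_b8021b_nt.SectorialMeans

open Filter Topology Set NumberField IsDedekindDomain

variable {K : Type} [Field K] [NumberField K] {n N : ℕ}

/-- The norm `q_v`. -/
noncomputable def nrm (v : HeightOneSpectrum (𝓞 K)) : ℕ := Ideal.absNorm v.asIdeal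

/-- The set `X` of homogeneous polynomials over `𝓞_K` in `n` variables gives a projective variety over
`K`.  For a field `κ` with `q` elements and a homomorphism `𝓞_K → κ` this is `(q - 1)` times the number
of the points of `X` with coordinates in `κ`: the number of the nonzero solutions of the equations. -/
noncomputable def cone (X : Set (MvPolynomial (Fin n) (𝓞 K))) {κ : Type} [Field κ]
    (φ : 𝓞 K →+* κ) : ℕ :=
  Nat.card {u : Fin n → κ // u ≠ 0 ∧ ∀ f ∈ X, MvPolynomial.eval₂ φ u f = 0}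

/-- `α_1, …, α_N` are the eigenvalues of the geometric Frobenius at the prime `v` of `K` on `H^i(X)`,
for a variety `X` of dimension `d`: there are finite multisets `β_k` of complex numbers of absolute
value `q_v^{k/2}`, `k = 0, …, 2d`, with `β_i = {α_1, …, α_N}`, such that for every finite extension
`κ` of the residue field of `v`, of degree `e`, the number of the points of `X` with coordinates in
`κ` is `∑ (-1)^k ∑_{z ∈ β_k} z^e`.  By the theorem of Deligne such `β_k` exist at almost all primes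
if `X` is smooth, with `N` the `i`-th Betti number of `X`; for `k ≤ 2d` they are unique. -/
def IsFrobenius (X : Set (MvPolynomial (Fin n) (𝓞 K))) (d i : ℕ)
    (v : HeightOneSpectrum (𝓞 K)) (α : Fin N → ℂ) : Prop :=
  ∃ β : ℕ → Multiset ℂ, β i = Finset.univ.val.map α ∧
    (∀ k, ∀ z ∈ β k, ‖z‖ = (nrm v : ℝ) ^ ((k : ℝ) / 2)) ∧
    ∀ (κ : Type) [Field κ] [Finite κ] (φ : 𝓞 K →+* κ) (e : ℕ), RingHom.ker φ = v.asIdeal →
      Nat.card κ = nrm v ^ e →
      (cone X φ : ℂ) = ((nrm v : ℂ) ^ e - 1) *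
          ∑ k ∈ Finset.range (2 * d + 1), (-1 : ℂ) ^ k * ((β k).map (fun z => z ^ e)).sum

variable {S : Set (HeightOneSpectrum (𝓞 K))}

/-- The Euler factor `∏_j (1 - α_{v,j} q_v^{-s})⁻¹`. -/
noncomputable def factor (α : S → Fin N → ℂ) (v : S) (s : ℂ) : ℂ :=
  ∏ j, (1 - α v j * (nrm v.1 : ℂ) ^ (-s))⁻¹

/-- The central point `c = (i + 1)/2`. -/
noncomputable def centre (i : ℕ) : ℝ := ((i : ℝ) + 1) / 2

/-- The open sector `|arg (s - c)| < π/(2ρ)` with vertex `c`. -/
def Sector (c ρ : ℝ) : Set ℂ := {s | s ≠ c ∧ |(s - c).arg| < Real.pi / (2 * ρ)}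

/-- The weight `w_ρ(u) = (1/2πi) ∫_{Re z = 1} exp(z - u z^{1/ρ}) dz/z`. -/
noncomputable def weight (ρ u : ℝ) : ℝ :=
  (2 * Real.pi)⁻¹ * ∫ t : ℝ, (Complex.exp ((1 + t * Complex.I) -
    u * (1 + t * Complex.I) ^ ((ρ⁻¹ : ℝ) : ℂ)) / (1 + t * Complex.I)).re

/-- The mean `S_ρ(Y)`, the sum of `w_ρ(log q_v / log Y) log |∏_j (1 - α_{v,j} q_v^{-c})|` over the `v ∈ S`
with `q_v ≤ exp ((log Y)^{ρ'})`. -/
noncomputable def mean (i : ℕ) (α : S → Fin N → ℂ) (ρ ρ' Y : ℝ) : ℝ :=
  ∑ᶠ (v : S) (_ : (nrm v.1 : ℝ) ≤ Real.exp (Real.log Y ^ ρ')),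
    weight ρ (Real.log (nrm v.1) / Real.log Y) *
      Real.log ‖∏ j, (1 - α v j * (nrm v.1 : ℂ) ^ (-(centre i : ℂ)))‖

/-- `S_ρ(Y) = κ log log Y + O(1)`. -/
def Law (i : ℕ) (α : S → Fin N → ℂ) (ρ ρ' κ : ℝ) : Prop :=
  ∃ C : ℝ, ∀ᶠ Y : ℝ in atTop, |mean i α ρ ρ' Y - κ * Real.log (Real.log Y)| ≤ C

/-- `S_ρ(Y) = O(exp((θ + ε) (log Y)^ρ))` for every `ε > 0`. -/
def Growth (i : ℕ) (α : S → Fin N → ℂ) (ρ ρ' θ : ℝ) : Prop :=
  ∀ ε : ℝ, 0 < ε → ∃ C : ℝ, ∀ᶠ Y : ℝ in atTop,
    |mean i α ρ ρ' Y| ≤ C * Real.exp ((θ + ε) * Real.log Y ^ ρ)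

/-- `L(s)` has a holomorphic continuation without zeros to the sector `|arg (s - c)| < π/(2ρ)`: there is
a holomorphic function without zeros in the sector, equal to the Euler product for `Re s > i/2 + 1`. -/
def ZeroFree (i : ℕ) (α : S → Fin N → ℂ) (ρ : ℝ) : Prop :=
  ∃ G : ℂ → ℂ, (∀ s ∈ Sector (centre i) ρ, DifferentiableAt ℂ G s ∧ G s ≠ 0) ∧
    ∀ s ∈ Sector (centre i) ρ, centre i + 1 / 2 < s.re → HasProd (fun v : S => factor α v s) (G s)

/-- `G` is a continuation of `L(s)` to `Re s > c` and to a neighbourhood of `c`. -/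
def IsContinuation (i : ℕ) (α : S → Fin N → ℂ) (G : ℂ → ℂ) : Prop :=
  (∀ s : ℂ, centre i < s.re → DifferentiableAt ℂ G s) ∧ AnalyticAt ℂ G (centre i : ℂ) ∧
    ∀ s : ℂ, centre i + 1 / 2 < s.re → HasProd (fun v : S => factor α v s) (G s)

/-- `H` is an analytic continuation of `L(s)` along the real axis: it is analytic at all real `x > c`
and equal to the Euler product at the real `x > i/2 + 1`. -/
def IsRealContinuation (i : ℕ) (α : S → Fin N → ℂ) (H : ℂ → ℂ) : Prop :=
  (∀ x : ℝ, centre i < x → AnalyticAt ℂ H x) ∧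
    ∀ x : ℝ, centre i + 1 / 2 < x → HasProd (fun v : S => factor α v x) (H x)

/-- `|H(s)|` is of the exact order `(s - c)^κ` for real `s > c`, `s → c`. -/
def RadialOrder (i : ℕ) (H : ℂ → ℂ) (κ : ℝ) : Prop :=
  ∃ A B : ℝ, 0 < A ∧ ∀ᶠ x : ℝ in 𝓝[>] centre i,
    A * (x - centre i) ^ κ ≤ ‖H x‖ ∧ ‖H x‖ ≤ B * (x - centre i) ^ κ

/-- **Theorem.** Let `X` be a projective variety over a number field `K`, given by a set of homogeneous
polynomials over `𝓞_K`, `i ≤ 2d`, `S` a set of primes of `K`, `α_{v,j}` the eigenvalues of Frobenius on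
`H^i(X)` at all `v ∈ S`, and `c = (i + 1)/2`. Let `ρ' > ρ > 1`.

(1) `L(s)` has a holomorphic continuation without zeros to the sector `|arg (s - c)| < π/(2ρ)` if and only if
`S_ρ(Y) = O(exp(ε (log Y)^ρ))` for every `ε > 0`.
(2) If `S_ρ(Y) = κ log log Y + O(1)`, `κ` real, then `L(s)` has such a continuation, and for every analytic
continuation `H` of `L(s)` along the real axis to all `s > c`: `H(s) ≠ 0` for real `s > c`, `|H(s)|` is of the
exact order `(s - c)^κ`, and if `H` is meromorphic at `c`, then its order at `c` is `κ`.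
(3) Let `G` be a continuation of `L(s)` to `Re s > c` and to a neighbourhood of `c`. For natural `r`:
`ord_{s=c} G = r` and `G` has no zeros in the sector if and only if `S_ρ(Y) = r log log Y + O(1)`;
`ord_{s=c} G = r` and `G` has no zeros with `Re s > c` if and only if this holds for all `ρ' > ρ > 1`; and for
`θ ≥ 0` all zeros `s` of `G` in the sector satisfy `Re (s - c)^ρ ≤ θ` if and only if
`S_ρ(Y) = O(exp((θ + ε)(log Y)^ρ))` for every `ε > 0`. -/
theorem result (X : Set (MvPolynomial (Fin n) (𝓞 K))) (d i : ℕ) (hi : i ≤ 2 * d)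
    (α : S → Fin N → ℂ) (h : ∀ v, IsFrobenius X d i v.1 (α v)) :
    (∀ ρ ρ' : ℝ, 1 < ρ → ρ < ρ' → (ZeroFree i α ρ ↔ Growth i α ρ ρ' 0)) ∧
    (∀ ρ ρ' κ : ℝ, 1 < ρ → ρ < ρ' → Law i α ρ ρ' κ → ZeroFree i α ρ ∧
      ∀ H : ℂ → ℂ, IsRealContinuation i α H →
        (∀ x : ℝ, centre i < x → H x ≠ 0) ∧ RadialOrder i H κ ∧
        ∀ m : ℤ, MeromorphicAt H (centre i : ℂ) → meromorphicOrderAt H (centre i : ℂ) = m →
          κ = m) ∧
    (∀ G : ℂ → ℂ, IsContinuation i α G →
      (∀ (ρ ρ' : ℝ) (r : ℕ), 1 < ρ → ρ < ρ' →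
        ((analyticOrderAt G (centre i : ℂ) = r ∧ ∀ s ∈ Sector (centre i) ρ, G s ≠ 0) ↔
          Law i α ρ ρ' r)) ∧
      (∀ r : ℕ, (analyticOrderAt G (centre i : ℂ) = r ∧ ∀ s : ℂ, centre i < s.re → G s ≠ 0) ↔
        ∀ ρ ρ' : ℝ, 1 < ρ → ρ < ρ' → Law i α ρ ρ' r) ∧
      (∀ ρ ρ' θ : ℝ, 1 < ρ → ρ < ρ' → 0 ≤ θ →
        ((∀ s ∈ Sector (centre i) ρ, G s = 0 → ((s - centre i) ^ (ρ : ℂ)).re ≤ θ) ↔
          Growth i α ρ ρ' θ))) := by
  have E := Pool.Agent.V11333.EVS.sys hi h
  have hF := Pool.Agent.V1194.SO.hx_prod hi h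
  have hm : ∀ ρ ρ' Y : ℝ, mean i α ρ ρ' Y = Pool.Agent.TH942.ES.SrE
      (fun v : S => Pool.Agent.H921R2.TatePole.nm v.1) (Pool.Agent.V11333.EVS.nal i α) ρ ρ' Y :=
    fun ρ ρ' Y => Pool.Agent.V1194.SO.hx_mean h ρ ρ' Y
  have hL : ∀ ρ ρ' κ : ℝ, Law i α ρ ρ' κ ↔ Pool.Agent.V1194.SO.LawE
      (fun v : S => Pool.Agent.H921R2.TatePole.nm v.1) (Pool.Agent.V11333.EVS.nal i α) ρ ρ' κ := by
    intro ρ ρ' κ
    unfold Law Pool.Agent.V1194.SO.LawE
    simp only [hm]
  have hG : ∀ ρ ρ' θ : ℝ, Growth i α ρ ρ' θ ↔ Pool.Agent.V1194.SO.GrowthE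
      (fun v : S => Pool.Agent.H921R2.TatePole.nm v.1) (Pool.Agent.V11333.EVS.nal i α) ρ ρ' θ := by
    intro ρ ρ' θ
    unfold Growth Pool.Agent.V1194.SO.GrowthE
    simp only [hm]
  refine ⟨fun ρ ρ' hρ hρ' => ?_, fun ρ ρ' κ hρ hρ' hκ => ?_, fun G hGc =>
    ⟨fun ρ ρ' r hρ hρ' => ?_, fun r => ?_, fun ρ ρ' θ hρ hρ' hθ => ?_⟩⟩
  · rw [hG]
    exact Pool.Agent.V1194.SO.gen_zero E hF hρ hρ'
  · exact Pool.Agent.V1194.SO.gen_radial E hF hρ hρ' ((hL ρ ρ' κ).1 hκ)
  · rw [hL]
    exact Pool.Agent.V1194.SO.gen_law E hF hGc hρ hρ' r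
  · simp only [hL]
    exact Pool.Agent.V1194.SO.gen_all E hF hGc r
  · rw [hG]
    exact Pool.Agent.V1194.SO.gen_level E hF hGc hρ hρ' hθ

end Pool.Agent.Results.MP_b8021b_nt.SectorialMeans
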